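import Pool.Agent.Helper17.SA.St3

/-! Project SA: module FI2 (final theorem of part 3) -/

set_option autoImplicit false

open Equiv Pool.Agent.Helper17.SA
open scoped Pointwise

namespace Pool.Agent.Helper42.SA

theorem card_perm (m : ℕ) : Nat.card (Perm (Fin m)) = m.factorial := by
  rw [Nat.card_eq_fintype_card, Fintype.card_perm, Fintype.card_fin]

theorem card_alt_small (m : ℕ) (hm : m ≤ 4) :
    Nat.card (alternatingGroup (Fin m)) = 1 ∨ Nat.card (alternatingGroup (Fin m)) = 2 ∨
    Nat.card (alternatingGroup (Fin m)) = 3 ∨ Nat.card (alternatingGroup (Fin m)) = 6 ∨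
    Nat.card (alternatingGroup (Fin m)) = 12 ∨ Nat.card (alternatingGroup (Fin m)) = 24 := by
  rcases Nat.lt_or_ge m 2 with h | h
  · left
    have : Subsingleton (Perm (Fin m)) := by
      have : Subsingleton (Fin m) := by
        constructor
        intro a b
        apply Fin.ext
        have := a.2
        have := b.2
        omega
      infer_instance
    exact Nat.card_unique
  · have : Nontrivial (Fin m) := by
      rw [← Fintype.one_lt_card_iff_nontrivial, Fintype.card_fin]
      omega
    have h2 := two_mul_nat_card_alternatingGroup (α := Fin m)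
    rw [card_perm] at h2
    have h3 : m = 2 ∨ m = 3 ∨ m = 4 := by omega
    rcases h3 with rfl | rfl | rfl
    · rw [show Nat.factorial 2 = 2 from rfl] at h2
      omega
    · rw [show Nat.factorial 3 = 6 from rfl] at h2
      omega
    · rw [show Nat.factorial 4 = 24 from rfl] at h2
      omega

theorem alt_simple (m : ℕ) (hm : 5 ≤ m) : IsSimpleGroup (alternatingGroup (Fin m)) := by
  apply alternatingGroup.isSimpleGroup
  rw [Nat.card_eq_fintype_card, Fintype.card_fin]
  exact hm

theorem alt_noncomm (m : ℕ) (hm : 5 ≤ m) : ∃ a b : alternatingGroup (Fin m), a * b ≠ b * a := by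
  by_contra hcon
  push Not at hcon
  have hs := alt_simple m hm
  have hc : Subgroup.center (alternatingGroup (Fin m)) = ⊥ := by
    apply alternatingGroup.center_eq_bot
    rw [Nat.card_eq_fintype_card, Fintype.card_fin]
    omega
  have ht : Subgroup.center (alternatingGroup (Fin m)) = ⊤ := by
    rw [eq_top_iff]
    intro x _
    rw [Subgroup.mem_center_iff]
    intro y
    exact hcon y x
  rw [hc] at ht
  exact bot_ne_top ht

theorem pFI2 : StCH → StAMP → StSYM → StALT → StSML → StPRD → StISO → StFI2 := by
  intro hCH hAMP hSYM hALT hSML hPRD hISO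
  intro G _ _ k N _ h0 hle ι _ p hp hinj hfac κ _ H _ hH hiso hst
  have hfin : ∀ c, Finite (H c) := by
    intro c
    obtain ⟨m, h | h⟩ := hH c
    · obtain ⟨e⟩ := h
      exact Finite.of_equiv _ e.symm.toEquiv
    · obtain ⟨e⟩ := h
      exact Finite.of_equiv _ e.symm.toEquiv
  have hQ : ∀ c, Q1 (H c) := by
    intro c
    obtain ⟨m, h | h⟩ := hH c
    · obtain ⟨e⟩ := h
      rcases Nat.lt_or_ge m 5 with hm | hm
      · apply hSML
        rw [Nat.card_congr e.toEquiv, card_perm]
        interval_cases m <;> simp [Nat.factorial]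
      · exact hISO (Perm (Fin m)) (H c) ⟨e.symm⟩ (hSYM m hm)
    · obtain ⟨e⟩ := h
      rcases Nat.lt_or_ge m 5 with hm | hm
      · apply hSML
        rw [Nat.card_congr e.toEquiv]
        exact card_alt_small m (by omega)
      · exact hISO (alternatingGroup (Fin m)) (H c) ⟨e.symm⟩ (hALT m hm)
  have hP := hPRD κ H hQ
  obtain ⟨e⟩ := hiso
  have hQk : Q1 (G ⧸ N k) := hISO (∀ c, H c) (G ⧸ N k) ⟨e.symm⟩ hP
  have htop := hQk ι p hp hinj hst
  refine hCH G k N h0 hle ι p hp hinj ?_ htop
  intro j hj
  rcases hfac j hj with h | ⟨Ω, hΩ, m, hm, hN⟩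
  · exact Or.inl h
  · right
    refine ⟨Ω, hΩ, fun ω => alternatingGroup (Fin (m ω)), fun ω => inferInstance, ?_, ?_, ?_, hN⟩
    · intro ω
      exact alt_simple (m ω) (by rcases hm ω with h | h <;> omega)
    · intro ω
      exact alt_noncomm (m ω) (by rcases hm ω with h | h <;> omega)
    · intro ω
      exact hAMP (m ω) (hm ω)

end Pool.Agent.Helper42.SA
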