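import Pool.Agent.Helper17.SA.St

set_option autoImplicit false

/-!
# Project SA, module T1 (trinomial coefficients)
-/

namespace Pool.Agent.Helper42.SA

open Pool.Agent.Helper17.SA

theorem T_coeff (n : ℕ) : ∀ k, ((1 + Polynomial.X + Polynomial.X ^ 2 : Polynomial ℕ) ^ n).coeff k
    = T n k := by
  induction n with
  | zero =>
    intro k
    rw [pow_zero, Polynomial.coeff_one]
    match k with
    | 0 => rfl
    | k + 1 => rfl
  | succ n ih =>
    intro k
    have e : ((1 + Polynomial.X + Polynomial.X ^ 2 : Polynomial ℕ) ^ (n + 1))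
        = (1 + Polynomial.X + Polynomial.X ^ 2) ^ n + (1 + Polynomial.X + Polynomial.X ^ 2) ^ n *
            Polynomial.X + (1 + Polynomial.X + Polynomial.X ^ 2) ^ n * Polynomial.X * Polynomial.X := by
      ring
    rw [e, Polynomial.coeff_add, Polynomial.coeff_add, ih]
    match k with
    | 0 =>
      rw [Polynomial.coeff_mul_X_zero, Polynomial.coeff_mul_X_zero]
      rfl
    | 1 =>
      rw [Polynomial.coeff_mul_X, Polynomial.coeff_mul_X, Polynomial.coeff_mul_X_zero, ih]
      rfl
    | k + 2 =>
      rw [Polynomial.coeff_mul_X, Polynomial.coeff_mul_X, Polynomial.coeff_mul_X, ih, ih]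
      rfl

theorem T_succ_ge (n k : ℕ) : T n k ≤ T (n + 1) k := by
  match k with
  | 0 => exact le_refl _
  | 1 => show T n 1 ≤ T n 1 + T n 0; omega
  | k + 2 => show T n (k + 2) ≤ T n (k + 2) + T n (k + 1) + T n k; omega

theorem T_vanish (n : ℕ) : ∀ k, 2 * n < k → T n k = 0 := by
  induction n with
  | zero =>
    intro k hk
    match k with
    | 0 => omega
    | k + 1 => rfl
  | succ n ih =>
    intro k hk
    match k with
    | 0 => omega
    | 1 => omega
    | k + 2 =>
      show T n (k + 2) + T n (k + 1) + T n k = 0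
      rw [ih _ (by omega), ih _ (by omega), ih _ (by omega)]

theorem T_zero (n : ℕ) : T n 0 = 1 := by
  induction n with
  | zero => rfl
  | succ n ih => exact ih

theorem pT1 : StT1 := by
  refine ⟨?_, ?_, T_zero, fun n k => T_vanish n k⟩
  · intro n1 n2 k
    rw [← T_coeff (n1 + n2) k, pow_add, Polynomial.coeff_mul,
      Finset.Nat.sum_antidiagonal_eq_sum_range_succ_mk]
    apply Finset.sum_congr rfl
    intro i _
    rw [T_coeff, T_coeff]
  · intro n n' k h
    induction n', h using Nat.le_induction with
    | base => exact le_refl _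
    | succ m _ ih => exact ih.trans (T_succ_ge m k)

end Pool.Agent.Helper42.SA
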