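import Pool.Agent.Helper17.SA.St

set_option autoImplicit false

/-!
# Project SA, module T2 (symmetry and unimodality of the trinomial coefficients)
-/

namespace Pool.Agent.Helper42.SA

open Pool.Agent.Helper17.SA

/-- extension by zero to negative indices -/
def Tz (n : ℕ) (k : ℤ) : ℕ := if 0 ≤ k then T n k.toNat else 0

theorem Tz_nat (n k : ℕ) : Tz n (k : ℤ) = T n k := by
  unfold Tz
  rw [if_pos (Int.natCast_nonneg k), Int.toNat_natCast]

theorem Tz_neg (n : ℕ) (k : ℤ) (h : k < 0) : Tz n k = 0 := by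
  unfold Tz
  rw [if_neg (by omega)]

theorem Tz_rec (n : ℕ) (k : ℤ) : Tz (n + 1) k = Tz n k + Tz n (k - 1) + Tz n (k - 2) := by
  rcases lt_or_ge k 0 with h | h
  · rw [Tz_neg _ _ h, Tz_neg _ _ h, Tz_neg _ _ (by omega), Tz_neg _ _ (by omega)]
  · obtain ⟨j, rfl⟩ := Int.eq_ofNat_of_zero_le h
    match j with
    | 0 =>
      rw [Tz_neg n ((0 : ℕ) - 1 : ℤ) (by norm_num), Tz_neg n ((0 : ℕ) - 2 : ℤ) (by norm_num),
        Tz_nat, Tz_nat]
      rfl
    | 1 =>
      have e : (((1 : ℕ) : ℤ) - 1) = ((0 : ℕ) : ℤ) := by norm_num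
      rw [e, Tz_neg n (((1 : ℕ) : ℤ) - 2) (by norm_num), Tz_nat, Tz_nat, Tz_nat]
      rfl
    | j + 2 =>
      have e1 : (((j + 2 : ℕ) : ℤ) - 1) = ((j + 1 : ℕ) : ℤ) := by push_cast; ring
      have e2 : (((j + 2 : ℕ) : ℤ) - 2) = ((j : ℕ) : ℤ) := by push_cast; ring
      rw [e1, e2, Tz_nat, Tz_nat, Tz_nat, Tz_nat]
      rfl

theorem Tz_zero (k : ℤ) : Tz 0 k = if k = 0 then 1 else 0 := by
  rcases lt_or_ge k 0 with h | h
  · rw [Tz_neg _ _ h, if_neg (by omega)]
  · obtain ⟨j, rfl⟩ := Int.eq_ofNat_of_zero_le h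
    rw [Tz_nat]
    match j with
    | 0 => rfl
    | j + 1 =>
      rw [if_neg (by push_cast; omega)]
      rfl

theorem Tz_symm (n : ℕ) : ∀ k : ℤ, Tz n (2 * n - k) = Tz n k := by
  induction n with
  | zero =>
    intro k
    rw [Tz_zero, Tz_zero]
    congr 1
    push_cast
    simp
  | succ n ih =>
    intro k
    rw [Tz_rec, Tz_rec n k]
    have e1 : (2 * ((n + 1 : ℕ) : ℤ) - k) = 2 * (n : ℤ) - (k - 2) := by push_cast; ring
    have e2 : (2 * ((n + 1 : ℕ) : ℤ) - k) - 1 = 2 * (n : ℤ) - (k - 1) := by push_cast; ring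
    have e3 : (2 * ((n + 1 : ℕ) : ℤ) - k) - 2 = 2 * (n : ℤ) - k := by push_cast; ring
    rw [e2, e3, e1, ih, ih, ih]
    omega

theorem Tz_mono (n : ℕ) : ∀ k : ℤ, k < n → Tz n k ≤ Tz n (k + 1) := by
  induction n with
  | zero =>
    intro k hk
    rw [Tz_neg _ _ (by push_cast at hk; exact hk)]
    exact Nat.zero_le _
  | succ n ih =>
    intro k hk
    rw [Tz_rec, Tz_rec n (k + 1)]
    have e1 : k + 1 - 1 = k := by ring
    have e2 : k + 1 - 2 = k - 1 := by ring
    rw [e1, e2]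
    have key : Tz n (k - 2) ≤ Tz n (k + 1) := by
      rcases lt_or_ge k n with h | h
      · have h1 := ih (k - 2) (by omega)
        have h2 := ih (k - 1) (by omega)
        have h3 := ih k h
        rw [show k - 2 + 1 = k - 1 by ring] at h1
        rw [show k - 1 + 1 = k by ring] at h2
        omega
      · have hk' : k = n := by push_cast at hk; omega
        have h1 := ih (k - 2) (by omega)
        rw [show k - 2 + 1 = k - 1 by ring] at h1
        have h2 := Tz_symm n (k - 1)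
        rw [show 2 * (n : ℤ) - (k - 1) = k + 1 by rw [hk']; ring] at h2
        omega
    omega

theorem T2a (r : ℕ) : T (r + 1) (r + 2) = T (r + 1) r := by
  have h := Tz_symm (r + 1) (r : ℤ)
  rw [show 2 * ((r + 1 : ℕ) : ℤ) - r = ((r + 2 : ℕ) : ℤ) by push_cast; ring, Tz_nat, Tz_nat] at h
  exact h

theorem T2b (r : ℕ) : 2 ^ r ≤ T (r + 1) r := by
  induction r with
  | zero => decide
  | succ r ih =>
    have h := Tz_mono (r + 1) (r : ℤ) (by push_cast; omega)
    rw [show (r : ℤ) + 1 = ((r + 1 : ℕ) : ℤ) by push_cast; ring, Tz_nat, Tz_nat] at h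
    have h2 := Tz_rec (r + 1) ((r + 1 : ℕ) : ℤ)
    rw [show ((r + 1 : ℕ) : ℤ) - 1 = (r : ℤ) by push_cast; ring, Tz_nat, Tz_nat, Tz_nat] at h2
    rw [h2, pow_succ]
    omega

theorem pT2 : StT1 → StT2 := fun _ => ⟨T2a, T2b⟩

end Pool.Agent.Helper42.SA
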