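import Pool.Agent.Helper17.SA.St

set_option autoImplicit false

/-!
# Project SA, module TB (upper bounds for the trinomial coefficients)
-/

namespace Pool.Agent.Helper42.SA

open Pool.Agent.Helper17.SA

theorem T_rec2 (n k : ℕ) : T (n + 1) (k + 2) = T n (k + 2) + T n (k + 1) + T n k := rfl
theorem T_rec1 (n : ℕ) : T (n + 1) 1 = T n 1 + T n 0 := rfl
theorem T_rec0 (n : ℕ) : T (n + 1) 0 = T n 0 := rfl

theorem T_zero' (n : ℕ) : T n 0 = 1 := by
  induction n with
  | zero => rfl
  | succ n ih => exact ih

theorem T_one (n : ℕ) : T n 1 = n := by
  induction n with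
  | zero => rfl
  | succ n ih => rw [T_rec1, ih, T_zero']

theorem TB1 (m : ℕ) : ∀ k, T (m + 1) k ≤ (m + k).choose k := by
  induction m with
  | zero =>
    intro k
    have e : (0 + k).choose k = 1 := by rw [Nat.zero_add, Nat.choose_self]
    rw [e]
    match k with
    | 0 => decide
    | 1 => decide
    | 2 => decide
    | k + 3 =>
      rw [T_rec2]
      show 0 + 0 + 0 ≤ 1
      omega
  | succ m ih =>
    intro k
    match k with
    | 0 =>
      rw [T_zero', Nat.choose_zero_right]
    | 1 =>
      rw [T_one, Nat.choose_one_right]
    | k + 2 =>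
      rw [T_rec2]
      have h1 := ih (k + 2)
      have h2 := ih (k + 1)
      have h3 := ih k
      have e1 : (m + 1 + (k + 2)).choose (k + 2)
          = (m + (k + 2)).choose (k + 1) + (m + (k + 2)).choose (k + 2) := by
        rw [show m + 1 + (k + 2) = (m + (k + 2)) + 1 by ring, show k + 2 = (k + 1) + 1 by ring,
          Nat.choose_succ_succ]
      have e2 : (m + (k + 2)).choose (k + 1)
          = (m + (k + 1)).choose k + (m + (k + 1)).choose (k + 1) := by
        rw [show m + (k + 2) = (m + (k + 1)) + 1 by ring, Nat.choose_succ_succ]
      have e3 : (m + k).choose k ≤ (m + (k + 1)).choose k := Nat.choose_le_choose k (by omega)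
      omega

theorem TB2 (n : ℕ) : ∀ k, T n k ≤ 3 ^ n := by
  induction n with
  | zero =>
    intro k
    match k with
    | 0 => decide
    | k + 1 => exact Nat.zero_le _
  | succ n ih =>
    intro k
    match k with
    | 0 =>
      rw [T_rec0, pow_succ]
      have := ih 0
      omega
    | 1 =>
      rw [T_rec1, pow_succ]
      have := ih 0
      have := ih 1
      omega
    | k + 2 =>
      rw [T_rec2, pow_succ]
      have := ih k
      have := ih (k + 1)
      have := ih (k + 2)
      omega

theorem TB3 (hT2 : StT2) (n : ℕ) : ∀ k, k ≤ n → 2 * T n k ≤ 3 * n.descFactorial k := by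
  induction n with
  | zero =>
    intro k hk
    have : k = 0 := by omega
    subst this
    decide
  | succ n ih =>
    intro k hk
    match k, hk with
    | 0, _ =>
      rw [T_zero', Nat.descFactorial_zero]
      omega
    | 1, _ =>
      rw [T_one, Nat.descFactorial_one]
      omega
    | k + 2, hk =>
      have e0 : (n + 1).descFactorial (k + 2) = (n + 1) * n.descFactorial (k + 1) :=
        Nat.succ_descFactorial_succ n (k + 1)
      have e1 : n.descFactorial (k + 1) = (n - k) * n.descFactorial k := Nat.descFactorial_succ n k
      have h2 := ih (k + 1) (by omega)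
      have h3 := ih k (by omega)
      rcases Nat.lt_or_ge n (k + 2) with h | h
      · have hn : n = k + 1 := by omega
        subst hn
        have hs := hT2.1 k
        rw [T_rec2, hs]
        rw [show k + 1 - k = 1 by omega, one_mul] at e1
        rw [e0, e1]
        rcases Nat.eq_zero_or_pos k with hk0 | hk0
        · subst hk0
          decide
        · have : 3 * (k + 1).descFactorial k ≤ (k + 1 + 1) * (k + 1).descFactorial k :=
            Nat.mul_le_mul_right _ (by omega)
          rw [e1] at h2
          omega
      · have h1 := ih (k + 2) h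
        have e2 : n.descFactorial (k + 2) = (n - (k + 1)) * n.descFactorial (k + 1) :=
          Nat.descFactorial_succ n (k + 1)
        rw [T_rec2, e0]
        have hD : n.descFactorial k ≤ n.descFactorial (k + 1) := by
          rw [e1]
          exact Nat.le_mul_of_pos_left _ (by omega)
        have e3 : (n + 1) * n.descFactorial (k + 1)
            = n.descFactorial (k + 2) + (k + 2) * n.descFactorial (k + 1) := by
          rw [e2, ← Nat.add_mul]
          congr 1
          omega
        have e4 : 2 * n.descFactorial (k + 1) ≤ (k + 2) * n.descFactorial (k + 1) :=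
          Nat.mul_le_mul_right _ (by omega)
        rw [e3]
        omega

theorem pTB : StT2 → StTB := by
  intro hT2
  refine ⟨?_, fun n k => TB2 n k, fun n k => TB3 hT2 n k⟩
  intro n k hn
  obtain ⟨m, rfl⟩ : ∃ m, n = m + 1 := ⟨n - 1, by omega⟩
  have := TB1 m k
  rwa [show m + 1 + k - 1 = m + k by omega]

end Pool.Agent.Helper42.SA
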